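import Pool.Agent.Work.MP_db9399_sx.Pre

/-!
# Block KSS: the palette for the edges between light vertices
-/

set_option autoImplicit false

namespace Pool.Agent.Work.MP_db9399_sx.helper59

open Finset Classical
open Pool.Agent.Work.MP_db9399_sw (ColD)
open Pool.Agent.Work.MP_db9399_ot.helper1 (Kp kt)

theorem mem_Ks' {k : ℕ} {ι : Type} (K0 E1 : Finset (Fin k)) (vb : Fin k → Option ι) (j0 : ι)
    (b : Fin k) : b ∈ Ks K0 E1 vb j0 ↔ b ∈ K0 ∧ b ∉ E1 ∧ vb b = some j0 := by
  unfold Ks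
  rw [Finset.mem_filter]

theorem stmt_KSS : Stmt_KSS := by
  intro k n m r M1 R0 κ d D K0 E1 cs ow e j0 hcd C hC i j
  have h1 := hcd.cnt (e (none, j0))
  have h2 := (abs_le.1 hcd.nD).1
  have hn : (0 : ℝ) < (n : ℝ) + 1 := by positivity
  have h3 : K0.filter (fun b => b ∉ E1 ∧ cs b = some (e (none, j0))) ⊆
      Ks K0 E1 (fun b => (cs b).map (fun i => (e.symm i).2)) j0 \ (C i ∪ C j) := by
    intro b hb
    obtain ⟨hb1, hb2, hb3⟩ := Finset.mem_filter.1 hb
    have h4 : ∀ j', b ∉ C j' := by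
      intro j' hbj
      obtain ⟨_, _, i', h5, h6⟩ := Finset.mem_filter.1 (hC j' hbj)
      rw [hb3] at h5
      have h7 : i' = e (none, j0) := (Option.some.inj h5).symm
      rw [h7, Equiv.symm_apply_apply] at h6
      cases h6
    refine Finset.mem_sdiff.2 ⟨(mem_Ks' K0 E1 _ j0 b).2 ⟨hb1, hb2, ?_⟩, ?_⟩
    · show (cs b).map (fun i => (e.symm i).2) = some j0
      rw [hb3, Option.map_some, Equiv.symm_apply_apply]
    · rw [Finset.mem_union]
      rintro (h | h)
      · exact h4 i h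
      · exact h4 j h
  have h4 : ((K0.filter (fun b => b ∉ E1 ∧ cs b = some (e (none, j0)))).card : ℝ) ≤
      ((Ks K0 E1 (fun b => (cs b).map (fun i => (e.symm i).2)) j0 \ (C i ∪ C j)).card : ℝ) := by
    exact_mod_cast Finset.card_le_card h3
  refine le_trans ?_ h4
  refine le_trans ?_ h1
  rw [one_div_mul_eq_div, div_le_iff₀ (by positivity)]
  have hd : (0 : ℝ) ≤ d := Nat.cast_nonneg d
  nlinarith

end Pool.Agent.Work.MP_db9399_sx.helper59
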