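import Pool.Agent.Work.MP_db9399_sx.Pre

/-!
# Block AVG: usable guards in the short spots with small outer degree
-/

set_option autoImplicit false

namespace Pool.Agent.Work.MP_db9399_sx.helper59

open Finset Classical
open Pool.Agent.Work.MP_db9399_all (nb)
open Pool.Agent.Work.MP_db9399_sl (InS)
open Pool.Agent.Work.MP_db9399_sw (shs sms ac avl Lgt)

universe u

theorem mem_nb' {V : Type u} [Fintype V] (G : SimpleGraph V) (v w : V) :
    w ∈ nb G v ↔ G.Adj v w := by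
  unfold nb
  rw [Finset.mem_filter]
  exact ⟨fun h => h.2, fun h => ⟨Finset.mem_univ _, h⟩⟩

theorem stmt_AVG : Stmt_AVG.{u} := by
  intro ζ ε hζ0 hζ1 hε0 hε1
  set q := min ε ζ with hq
  have hq0 : 0 < q := lt_min hε0 hζ0
  have hqε : q ≤ ε := min_le_left _ _
  have hqζ : q ≤ ζ := min_le_right _ _
  refine ⟨q / 8, q / 16, by positivity, by positivity, by linarith, ⌈Real.exp (3 / q)⌉₊, ?_⟩
  intro V _ k ι κ θ θ' η δ1 a c G EH d Ys UH Hs Gd c0 tu cc E K0 E1 vb sy u j0 sp hm hd hθ ha hG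
    hzt hHs hGd hLB hLA hOW htyp Y hY b hbK hbF hbU
  have hd1 : Real.exp (3 / q) ≤ d := (Nat.le_ceil _).trans (by exact_mod_cast hd)
  have hdpos : (0 : ℝ) < d := (Real.exp_pos _).trans_le hd1
  have hlog : 3 / q ≤ Real.log d := (Real.le_log_iff_exp_le hdpos).2 hd1
  have h3q : 3 ≤ 3 / q := by
    rw [le_div_iff₀ hq0]
    linarith
  have hlog1 : 1 ≤ Real.log d := by linarith
  set L := Real.log d ^ 8 with hL
  have hLlog : Real.log d ≤ L := by
    rw [hL]
    exact le_self_pow₀ hlog1 (by norm_num)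
  have hL0 : 0 ≤ L := by linarith
  have hqL : 3 ≤ q * L := by
    have h1 : 3 / q ≤ L := hlog.trans hLlog
    rw [div_le_iff₀ hq0] at h1
    linarith
  have hYs : Y ∈ shs d Ys := (Finset.mem_filter.1 hY).1
  have hYY : Y ∈ Ys := (Finset.mem_filter.1 hYs).1
  have hYd : Y.card < d := (Finset.mem_filter.1 hYs).2
  have hYd' : (Y.card : ℝ) ≤ d := by exact_mod_cast hYd.le
  have hYlow := hG.low Y hYY
  have hY0 : (0 : ℝ) < Y.card := by nlinarith
  set U := ubl G UH c0 Y b with hU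
  set i0 : ι := (vb b).getD j0 with hi0
  set B1 := (Y ∩ Gd).filter (fun v => u v = none ∨ u v = some i0) with hB1
  set B2 := (Y ∩ Gd).filter (fun v => sp v = (sy b).1 ∨ sp v = (sy b).2) with hB2
  have hB1c : (B1.card : ℝ) ≤ q / 16 * L := hLB.gd Y hY i0
  have hB2c : (B2.card : ℝ) ≤ q / 16 * L := hLA.gd Y hY _ _
  have hU2 : ((U ∩ Gd).card : ℝ) ≤ (U.card / Y.card + q / 16) * L := hGd.t2 Y hY b
  have hG0 := (abs_le.1 (hGd.t0 Y hY)).1
  -- main counting
  have key : ∀ R ⊆ Y ∩ Gd, (∀ v ∈ R, v ∉ U → b ∉ ac G Ys UH cc v) →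
      (R.card : ℝ) ≤ ((avl G Ys UH cc E Y b ∩ Gd).card : ℝ) + (U ∩ Gd).card + B1.card +
        B2.card := by
    intro R hR hRa
    have h1 : R ⊆ (avl G Ys UH cc E Y b ∩ Gd) ∪ (U ∩ Gd) ∪ B1 ∪ B2 := by
      intro v hv
      have hvY := (Finset.mem_inter.1 (hR hv)).1
      have hvG := (Finset.mem_inter.1 (hR hv)).2
      have hvm := hGd.mem v hvG
      by_cases hvU : v ∈ U
      · simp only [Finset.mem_union, Finset.mem_inter]
        tauto
      · by_cases hvE : b ∈ E v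
        · have hlg : Lgt Ys Hs v := ⟨⟨Y, hYY, hvY⟩, hvm.2.1⟩
          rcases hu : u v with _ | i
          · have : v ∈ B1 := Finset.mem_filter.2 ⟨hR hv, Or.inl hu⟩
            simp only [Finset.mem_union]
            tauto
          · rcases htyp v i hlg hvm.1 hu b hvE with ⟨_, h3⟩ | ⟨_, h3⟩
            · have h4 : i0 = i := by
                rw [hi0, h3]
                rfl
              have : v ∈ B1 := Finset.mem_filter.2 ⟨hR hv, Or.inr (by rw [hu, h4])⟩
              simp only [Finset.mem_union]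
              tauto
            · have : v ∈ B2 := Finset.mem_filter.2 ⟨hR hv, h3⟩
              simp only [Finset.mem_union]
              tauto
        · have : v ∈ avl G Ys UH cc E Y b ∩ Gd := Finset.mem_inter.2
            ⟨Finset.mem_filter.2 ⟨hvY, hvm.1, hvE, hRa v hv hvU⟩, hvG⟩
          simp only [Finset.mem_union]
          tauto
    have h2 := Finset.card_le_card h1
    have h3 := Finset.card_union_le ((avl G Ys UH cc E Y b ∩ Gd) ∪ (U ∩ Gd) ∪ B1) B2
    have h4 := Finset.card_union_le ((avl G Ys UH cc E Y b ∩ Gd) ∪ (U ∩ Gd)) B1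
    have h5 := Finset.card_union_le (avl G Ys UH cc E Y b ∩ Gd) (U ∩ Gd)
    have h6 : R.card ≤ (avl G Ys UH cc E Y b ∩ Gd).card + (U ∩ Gd).card + B1.card + B2.card := by
      omega
    exact_mod_cast h6
  -- a blocked guard has a neighbour of own colour `b`
  have hac : ∀ v ∈ Y, b ∈ ac G Ys UH cc v → v ∉ U → ∃ w, ¬ InS Ys w ∧ w ∉ UH ∧ G.Adj v w ∧
      cc w = b := by
    intro v hv hb hvU
    obtain ⟨w, hw, hwb⟩ := Finset.mem_image.1 hb
    have hw1 := (mem_nb' G v w).1 (Finset.mem_filter.1 hw).1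
    have hw2 := (Finset.mem_filter.1 hw).2
    by_cases hwU : w ∈ UH
    · exfalso
      have h1 : c0 w = b := by rw [← hOW.cU w hwU, hwb]
      by_cases hwY : w ∈ Y
      · exact hbU (Finset.mem_image.2 ⟨w, Finset.mem_inter.2 ⟨hwY, hwU⟩, h1⟩)
      · exact hvU (Finset.mem_filter.2 ⟨hv, w, hwU, hwY, hw1, h1⟩)
    · exact ⟨w, fun h => hwU (hw2 h), hwU, hw1, hwb⟩
  by_cases hex : ∃ w, ¬ InS Ys w ∧ w ∉ UH ∧ cc w = b ∧ (nb G w ∩ (Y ∩ Gd)).Nonempty
  · obtain ⟨w, hw1, hw2, hw3, hw4⟩ := hex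
    have h1 := key ((Y \ nb G w) ∩ Gd) (Finset.inter_subset_inter_right Finset.sdiff_subset) (by
      intro v hv hvU hb
      obtain ⟨hv1, hv2⟩ := Finset.mem_inter.1 hv
      obtain ⟨hv3, hv4⟩ := Finset.mem_sdiff.1 hv1
      obtain ⟨w', h3, h4, h5, h6⟩ := hac v hv3 hb hvU
      have h7 : (nb G w' ∩ (Y ∩ Gd)).Nonempty :=
        ⟨v, Finset.mem_inter.2 ⟨(mem_nb' G w' v).2 h5.symm, Finset.mem_inter.2 ⟨hv3, hv2⟩⟩⟩
      have h8 : w' ≠ w := by
        rintro rfl
        exact hv4 ((mem_nb' G w' v).2 h5.symm)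
      exact hOW.gdc Y hY w' w h3 hw1 h4 hw2 h8 h7 hw4 (by rw [h6, hw3]))
    have h2 : (((Y \ nb G w).card : ℝ) / Y.card - q / 16) * L ≤
        (((Y \ nb G w) ∩ Gd).card : ℝ) := hGd.t1 Y hY w
    have h3 : ζ ≤ ((Y \ nb G w).card : ℝ) / Y.card := by
      rw [le_div_iff₀ hY0]
      have h4 := hzt Y hYY w fun h => hw1 ⟨Y, hYY, h⟩
      nlinarith
    have h4 : (U.card : ℝ) / Y.card ≤ ζ / 4 := by
      rw [div_le_iff₀ hY0]
      have h5 := hOW.gdx Y hY w hw1 hw2 hw4
      rw [hw3] at h5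
      exact h5.trans (mul_le_mul_of_nonneg_right ha hY0.le)
    have h5 := mul_le_mul_of_nonneg_right h3 hL0
    have h6 := mul_le_mul_of_nonneg_right h4 hL0
    have h7 := mul_le_mul_of_nonneg_right hqζ hL0
    nlinarith
  · have h1 := key (Y ∩ Gd) (Finset.Subset.refl _) (by
      intro v hv hvU hb
      obtain ⟨hv1, hv2⟩ := Finset.mem_inter.1 hv
      obtain ⟨w', h3, h4, h5, h6⟩ := hac v hv1 hb hvU
      exact hex ⟨w', h3, h4, h6, v, Finset.mem_inter.2 ⟨(mem_nb' G w' v).2 h5.symm, hv⟩⟩)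
    have h2 : ((U \ Hs).card : ℝ) < (1 - ε) * Y.card := by
      by_contra h3
      refine hbF ?_
      unfold Fyd
      rw [if_pos hY]
      exact Finset.mem_filter.2 ⟨hbK, not_lt.1 h3⟩
    have h3 : (U.card : ℝ) ≤ (U \ Hs).card + (Y ∩ Hs).card := by
      have h4 : U ⊆ (U \ Hs) ∪ (Y ∩ Hs) := by
        intro v hv
        have hvY : v ∈ Y := (Finset.mem_filter.1 hv).1
        by_cases hvH : v ∈ Hs
        · exact Finset.mem_union_right _ (Finset.mem_inter.2 ⟨hvY, hvH⟩)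
        · exact Finset.mem_union_left _ (Finset.mem_sdiff.2 ⟨hv, hvH⟩)
      exact_mod_cast (Finset.card_le_card h4).trans (Finset.card_union_le _ _)
    have h4 := hHs Y hYY
    have h5 : (U.card : ℝ) / Y.card ≤ 1 - ε + q / 16 := by
      rw [div_le_iff₀ hY0]
      linarith
    have h6 := mul_le_mul_of_nonneg_right h5 hL0
    have h7 := mul_le_mul_of_nonneg_right hqε hL0
    nlinarith

end Pool.Agent.Work.MP_db9399_sx.helper59
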